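import Mathlib
import Pool.Agent.Helper774.Final2

open Matrix
open scoped ComplexOrder InnerProductSpace TensorProduct

namespace Pool.Agent.Results.MP_74fcff_an.Classification

universe u

/-- The numerical range of a bounded operator. -/
def numRange {K : Type*} [NormedAddCommGroup K] [InnerProductSpace ℂ K] (T : K →L[ℂ] K) :
    Set ℂ :=
  {z | ∃ x : K, ‖x‖ = 1 ∧ inner ℂ x (T x) = z}

/-- The numerical range `{x* A x : x* x = 1}` of a square matrix. -/
def matRange {n : ℕ} (A : Matrix (Fin n) (Fin n) ℂ) : Set ℂ :=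
  {z | ∃ x : Fin n → ℂ, star x ⬝ᵥ x = 1 ∧ star x ⬝ᵥ (A *ᵥ x) = z}

/-- The matrix `A` as a linear map of `ℂ^n`. -/
noncomputable def matLin {n : ℕ} (A : Matrix (Fin n) (Fin n) ℂ) :
    EuclideanSpace ℂ (Fin n) →ₗ[ℂ] EuclideanSpace ℂ (Fin n) where
  toFun x := WithLp.toLp 2 (A *ᵥ x.ofLp)
  map_add' x y := by rw [WithLp.ofLp_add, Matrix.mulVec_add, WithLp.toLp_add]
  map_smul' c x := by rw [WithLp.ofLp_smul, Matrix.mulVec_smul, WithLp.toLp_smul]; rfl

/-- The operator `I_H ⊗ A` on `H ⊗ ℂ^n`. -/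
noncomputable def ampliation (H : Type u) [NormedAddCommGroup H] [InnerProductSpace ℂ H]
    {n : ℕ} (A : Matrix (Fin n) (Fin n) ℂ) :
    H ⊗[ℂ] EuclideanSpace ℂ (Fin n) →ₗ[ℂ] H ⊗[ℂ] EuclideanSpace ℂ (Fin n) :=
  LinearMap.lTensor H (matLin A)

/-- `T = X* (I_H ⊗ A) X` for a map `X : K → H ⊗ ℂ^n`. -/
def IsCompression {K H : Type u} [NormedAddCommGroup K] [InnerProductSpace ℂ K]
    [NormedAddCommGroup H] [InnerProductSpace ℂ H] {n : ℕ} (A : Matrix (Fin n) (Fin n) ℂ)
    (T : K → K) (X : K → H ⊗[ℂ] EuclideanSpace ℂ (Fin n)) : Prop :=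
  ∀ x y : K, inner ℂ (X y) (ampliation H A (X x)) = inner ℂ y (T x)

/-- There is a Hilbert space `H` and an isometry `X : K → H ⊗ ℂ^n` with `T = X* (I_H ⊗ A) X`. -/
def HasDilation {K : Type u} [NormedAddCommGroup K] [InnerProductSpace ℂ K]
    {n : ℕ} (A : Matrix (Fin n) (Fin n) ℂ) (T : K → K) : Prop :=
  ∃ (H : Type u) (_ : NormedAddCommGroup H) (_ : InnerProductSpace ℂ H)
    (_ : CompleteSpace H) (X : K →ₗᵢ[ℂ] H ⊗[ℂ] EuclideanSpace ℂ (Fin n)), IsCompression A T X

/-- Property (D): every bounded operator `T` on a Hilbert space `K` with `W(T) ⊆ W(A)` is of the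
form `X* (I_H ⊗ A) X` for a Hilbert space `H` and an isometry `X : K → H ⊗ ℂ^n`. -/
def PropertyD {n : ℕ} (A : Matrix (Fin n) (Fin n) ℂ) : Prop :=
  ∀ (K : Type u) [NormedAddCommGroup K] [InnerProductSpace ℂ K] [CompleteSpace K]
    (T : K →L[ℂ] K), numRange T ⊆ matRange A → HasDilation A T

/-- `A` is unitarily similar to a direct sum `[lam] ⊕ A₀` with `A₀` of size two. -/
def SplitsOff (A : Matrix (Fin 3) (Fin 3) ℂ) : Prop :=
  ∃ (U : Matrix (Fin 3) (Fin 3) ℂ) (lam : ℂ) (A₀ : Matrix (Fin 2) (Fin 2) ℂ),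
    Uᴴ * U = 1 ∧ Uᴴ * A * U = !![lam, 0, 0; 0, A₀ 0 0, A₀ 0 1; 0, A₀ 1 0, A₀ 1 1]

/-- The boundary of the numerical range contains a non-degenerate line segment. -/
def HasFlatPortion (A : Matrix (Fin 3) (Fin 3) ℂ) : Prop :=
  ∃ z w : ℂ, z ≠ w ∧ segment ℝ z w ⊆ frontier (matRange A)

theorem matRange_eq {n : ℕ} (A : Matrix (Fin n) (Fin n) ℂ) :
    matRange A = Pool.Agent.Helper774.MW A := rfl

/-- A complex 3 by 3 matrix has property (D) exactly when it is unitarily similar to some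
`[lam] ⊕ A₀` or the boundary of its numerical range contains a line segment. -/
theorem result (A : Matrix (Fin 3) (Fin 3) ℂ) :
    PropertyD.{u} A ↔ (SplitsOff A ∨ HasFlatPortion A) := by
  constructor
  · intro hD
    by_contra hcon
    rw [not_or] at hcon
    obtain ⟨h1, h2⟩ := hcon
    have hNR : Pool.Agent.Helper774.NoRed A := by
      intro h
      exact h1 ((Pool.Agent.Helper774.splits_iff A).mpr h)
    have hNF : Pool.Agent.Helper774.NoFlat A := by
      intro h
      apply h2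
      obtain ⟨z, w, hzw, hseg⟩ := (Pool.Agent.Helper774.flat_iff A).mpr h
      exact ⟨z, w, hzw, by rw [matRange_eq]; exact hseg⟩
    obtain ⟨T, hT, hnot⟩ := Pool.Agent.Helper774.neg_direction A hNR hNF
    apply hnot
    apply Pool.Agent.Helper774.finDil_of_property.{u} A _ T hT
    intro K _ _ _ T' hT'
    obtain ⟨H, i1, i2, i3, X, hX⟩ := hD K T' (by
      rintro z ⟨x, hx, rfl⟩
      rw [matRange_eq]
      exact hT' x hx)
    exact ⟨H, i1, i2, i3, X, hX⟩
  · intro h K _ _ _ T hT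
    obtain ⟨H, i1, i2, i3, X, hX⟩ := Pool.Agent.Helper774.exists_dilation A (by
      rcases h with h | h
      · obtain ⟨x, hx, a, a', e1, e2⟩ := (Pool.Agent.Helper774.splits_iff A).mp h
        exact Pool.Agent.Helper774.finPropD_reducible A x hx a a' e1 e2
      · obtain ⟨z, w, hzw, hseg⟩ := h
        rw [matRange_eq] at hseg
        obtain ⟨u, z', w', hu, hz, hw, hne, heq, hmax⟩ :=
          (Pool.Agent.Helper774.flat_iff A).mp ⟨z, w, hzw, hseg⟩
        exact Pool.Agent.Helper774.finPropD_flat A u hu z' w' hz hw hne heq hmax) T (by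
      intro x hx
      rw [← matRange_eq]
      exact hT ⟨x, hx, rfl⟩)
    exact ⟨H, i1, i2, i3, X, hX⟩

end Pool.Agent.Results.MP_74fcff_an.Classification
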